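import Pool.Agent.W514.SS.Lin

/-!
# Isotropic stable subspaces
-/

set_option autoImplicit false

namespace Pool.Agent.W514.SS

open Polynomial Module

section
variable {K V : Type*} [Field K] [AddCommGroup V] [Module K V] [FiniteDimensional K V]

omit [FiniteDimensional K V] in
lemma adj_poly {B : LinearMap.BilinForm K V} {ψ : End K V} {f : K[X]}
    (hadj : ∀ x y, B (ψ x) y = B x (aeval ψ f y)) (g : K[X]) (x y : V) :
    B (aeval ψ g x) y = B x (aeval ψ (g.comp f) y) := by
  induction g using Polynomial.induction_on' with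
  | add p q hp hq => simp [map_add, hp, hq, add_comp]
  | monomial n a =>
    have key : ∀ (n : ℕ) (y : V), B ((ψ ^ n) x) y = B x (aeval ψ (f ^ n) y) := by
      intro n
      induction n with
      | zero => intro y; simp
      | succ n ih =>
        intro y
        rw [pow_succ', Module.End.mul_apply, hadj, ih, pow_succ, map_mul, Module.End.mul_apply]
    rw [aeval_monomial, monomial_comp, map_mul, aeval_C, ← Algebra.smul_def, ← Algebra.smul_def,
      LinearMap.smul_apply, LinearMap.smul_apply, map_smul, map_smul, LinearMap.smul_apply, key]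

lemma core {B : LinearMap.BilinForm K V} (hB : B.SeparatingRight) {ψ : End K V} {f : K[X]}
    (hsq : Squarefree ψ.charpoly)
    (hadj : ∀ x y, B (ψ x) y = B x (aeval ψ f y))
    {U : Submodule K V} (hU : ∀ x ∈ U, ψ x ∈ U) (hiso : ∀ x ∈ U, ∀ y ∈ U, B x y = 0)
    {α : AlgebraicClosure K}
    (hα : aeval α (LinearMap.restrict ψ hU : End K U).charpoly = 0)
    (hinv : aeval (aeval α f) f = α)
    (hfα : aeval (aeval α f) (LinearMap.restrict ψ hU : End K U).charpoly = 0) : False := by
  obtain ⟨hc, hker⟩ := stable_eq_ker hsq hU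
  set c : K[X] := (LinearMap.restrict ψ hU : End K U).charpoly with hcdef
  set β : AlgebraicClosure K := aeval α f with hβ
  have hαi : IsIntegral K α := Algebra.IsIntegral.isIntegral α
  have hβi : IsIntegral K β := Algebra.IsIntegral.isIntegral β
  have hQc : minpoly K α ∣ c := minpoly.dvd K α hα
  have hQ'c : minpoly K β ∣ c := minpoly.dvd K β hfα
  have hsub : ∀ {Q : K[X]}, Q ∣ c → ∀ x, aeval ψ Q x = 0 → x ∈ U := by
    intro Q hQ x hx
    rw [hker, LinearMap.mem_ker]
    obtain ⟨R, hR⟩ := hQ
    rw [hR, mul_comm, map_mul, Module.End.mul_apply, hx, map_zero]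
  obtain ⟨y, hy0, hy⟩ : ∃ y, y ≠ 0 ∧ aeval ψ (minpoly K β) y = 0 := by
    have h1 := not_injective_of_dvd (ψ := ψ) (Q := minpoly K β)
      (minpoly.degree_pos hβi).ne' (hQ'c.trans hc)
    by_contra hcon
    push Not at hcon
    apply h1
    intro a b hab
    by_contra hne
    exact hcon (a - b) (sub_ne_zero.2 hne) (by rw [map_sub, hab, sub_self])
  obtain ⟨x, hx⟩ : ∃ x, B x y ≠ 0 := by
    by_contra hcon
    push Not at hcon
    exact hy0 (hB y hcon)
  obtain ⟨T, hT⟩ := hQc.trans hc
  have hcop : IsCoprime (minpoly K α) T := by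
    refine ((minpoly.irreducible hαi).coprime_iff_not_dvd).2 fun hdvd => ?_
    have : minpoly K α * minpoly K α ∣ ψ.charpoly := by
      rw [hT]
      exact mul_dvd_mul_left _ hdvd
    exact (minpoly.irreducible hαi).not_isUnit (hsq _ this)
  obtain ⟨a, b, hab⟩ := hcop
  have hsplit : x = aeval ψ (a * minpoly K α) x + aeval ψ (b * T) x := by
    rw [← LinearMap.add_apply, ← map_add, hab, map_one, Module.End.one_apply]
  have h1 : B (aeval ψ (a * minpoly K α) x) y = 0 := by
    rw [adj_poly hadj, mul_comp, map_mul, Module.End.mul_apply]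
    have h2 : minpoly K β ∣ (minpoly K α).comp f := by
      refine minpoly.dvd K β ?_
      rw [aeval_comp, hinv, minpoly.aeval]
    obtain ⟨R, hR⟩ := h2
    rw [hR, mul_comm (minpoly K β) R, map_mul, Module.End.mul_apply, hy, map_zero, map_zero,
      map_zero]
  have h2 : aeval ψ (b * T) x ∈ U := by
    refine hsub hQc _ ?_
    rw [← Module.End.mul_apply, ← map_mul, show minpoly K α * (b * T) = b * (minpoly K α * T) by
      ring, map_mul, ← hT, LinearMap.aeval_self_charpoly, mul_zero, LinearMap.zero_apply]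
  have h3 : y ∈ U := hsub hQ'c y hy
  apply hx
  rw [hsplit, map_add, LinearMap.add_apply, h1, zero_add]
  exact hiso _ h2 _ h3

end

/-- No exotic multiplicative relation between the roots of `P`: for every nonempty set `S` of
complex roots of `P` which contains no two conjugate roots (and no real root), no power of the
product of the elements of `S` lies in the image of `F`. -/
def NoExotic (P : ℚ[X]) (F : Type*) [Field F] : Prop :=
  ∀ S : Finset ℂ, S.Nonempty → (∀ z ∈ S, aeval z P = 0 ∧ (starRingEnd ℂ) z ∉ S) →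
    ∀ n : ℕ, 0 < n → ∀ (τ : F →+* ℂ) (a : F), (∏ z ∈ S, z) ^ n ≠ τ a

/-- A power of `d` lies in the image of `F` in an algebraic closure of `K`. -/
def PowerIn (F : Type*) [Field F] {K : Type*} [Field K] (d : K) : Prop :=
  ∃ n : ℕ, 0 < n ∧ ∃ (τ : F →+* AlgebraicClosure K) (a : F),
    algebraMap K (AlgebraicClosure K) (d ^ n) = τ a

instance isAlgebraic_rat : Algebra.IsAlgebraic ℚ (AlgebraicClosure ℚ) := by
  have h := AlgebraicClosure.isAlgebraic ℚ
  convert h
  · rfl
  · exact Subsingleton.elim _ _

section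
variable {K V F : Type*} [Field K] [CharZero K] [AddCommGroup V] [Module K V]
  [FiniteDimensional K V] [Field F] [CharZero F] [Algebra.IsAlgebraic ℚ F]

theorem isotropic_eq_bot {P f : ℚ[X]} (hP : P.Separable)
    (hf : ∀ z : ℂ, aeval z P = 0 → aeval z f = (starRingEnd ℂ) z) (hNE : NoExotic P F)
    {B : LinearMap.BilinForm K V} (hB : B.SeparatingRight) {ψ : End K V}
    (hψ : ψ.charpoly = P.map (algebraMap ℚ K))
    (hadj : ∀ x y, B (ψ x) y = B x (aeval ψ (f.map (algebraMap ℚ K)) y))
    {U : Submodule K V} (hU : ∀ x ∈ U, ψ x ∈ U) (hiso : ∀ x ∈ U, ∀ y ∈ U, B x y = 0)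
    (hdet : PowerIn F (LinearMap.det (LinearMap.restrict ψ hU : End K U))) : U = ⊥ := by
  classical
  by_contra hbot
  have hsep : ψ.charpoly.Separable := by rw [hψ]; exact hP.map
  have hsq : Squarefree ψ.charpoly := hsep.squarefree
  obtain ⟨hc, hker⟩ := stable_eq_ker hsq hU
  have hcore := fun (α : AlgebraicClosure K) => core hB hsq hadj hU hiso (α := α)
  set ψU : End K U := LinearMap.restrict ψ hU with hψU
  set c : K[X] := ψU.charpoly with hcdef
  have hcm : c.Monic := ψU.charpoly_monic
  have hc1 : c ≠ 1 := by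
    intro h1
    apply hbot
    rw [hker, h1, map_one]
    exact LinearMap.ker_id
  have hP0 : P ≠ 0 := hP.ne_zero
  let i : AlgebraicClosure ℚ →ₐ[ℚ] AlgebraicClosure K := IsAlgClosed.lift
  let j : AlgebraicClosure ℚ →ₐ[ℚ] ℂ := IsAlgClosed.lift
  have hi : Function.Injective i := i.toRingHom.injective
  have hj : Function.Injective j := j.toRingHom.injective
  -- the roots in the field of algebraic numbers
  set RA : Finset (AlgebraicClosure ℚ) :=
    (P.map (algebraMap ℚ (AlgebraicClosure ℚ))).roots.toFinset with hRA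
  have hmemRA : ∀ r : AlgebraicClosure ℚ, r ∈ RA ↔ aeval r P = 0 := by
    intro r
    rw [hRA, Multiset.mem_toFinset, mem_roots ((Polynomial.map_ne_zero_iff
      (algebraMap ℚ (AlgebraicClosure ℚ)).injective).2 hP0), IsRoot, eval_map, ← aeval_def]
  set T : Finset (AlgebraicClosure ℚ) := RA.filter fun r => aeval (i r) c = 0 with hT
  have hcsep : c.Separable := hsep.of_dvd hc
  have hcE : (c.map (algebraMap K (AlgebraicClosure K))).Monic := hcm.map _
  have hsplits : (c.map (algebraMap K (AlgebraicClosure K))).Splits := IsAlgClosed.splits _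
  have hnodup : (c.map (algebraMap K (AlgebraicClosure K))).roots.Nodup :=
    nodup_roots hcsep.map
  have hPsplit : (P.map (algebraMap ℚ (AlgebraicClosure ℚ))).Splits := IsAlgClosed.splits _
  have hPi : ∀ α : AlgebraicClosure K, aeval α P = 0 → ∃ r ∈ RA, i r = α := by
    intro α hα
    have h1 : ((P.map (algebraMap ℚ (AlgebraicClosure ℚ))).map (i : _ →+* _)).IsRoot α := by
      have e : ((i : AlgebraicClosure ℚ →+* AlgebraicClosure K).comp
          (algebraMap ℚ (AlgebraicClosure ℚ))) = algebraMap ℚ (AlgebraicClosure K) :=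
        Subsingleton.elim _ _
      rw [Polynomial.map_map, IsRoot, eval_map, e]
      exact hα
    obtain ⟨r, hr⟩ := hPsplit.mem_range_of_isRoot ((Polynomial.map_ne_zero_iff
      (algebraMap ℚ (AlgebraicClosure ℚ)).injective).2 hP0) h1
    refine ⟨r, (hmemRA r).2 ?_, hr⟩
    apply hi
    rw [map_zero, ← aeval_algHom_apply]
    have hr' : i r = α := hr
    rw [hr', hα]
  have hroots : (c.map (algebraMap K (AlgebraicClosure K))).roots.toFinset = T.image i := by
    ext α
    rw [Multiset.mem_toFinset, mem_roots hcE.ne_zero, IsRoot, eval_map, ← aeval_def,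
      Finset.mem_image]
    constructor
    · intro hα
      have h1 : aeval α P = 0 := by
        obtain ⟨R, hR⟩ := hc
        have h2 : aeval α ψ.charpoly = 0 := by rw [hR, map_mul, hα, zero_mul]
        rwa [hψ, aeval_map_algebraMap] at h2
      obtain ⟨r, hr, rfl⟩ := hPi α h1
      exact ⟨r, by rw [hT, Finset.mem_filter]; exact ⟨hr, hα⟩, rfl⟩
    · rintro ⟨r, hr, rfl⟩
      rw [hT, Finset.mem_filter] at hr
      exact hr.2
  have hval : (c.map (algebraMap K (AlgebraicClosure K))).roots = (T.image i).val := by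
    rw [← hroots, Multiset.toFinset_val, hnodup.dedup]
  have hprod : (c.map (algebraMap K (AlgebraicClosure K))).roots.prod = i (∏ r ∈ T, r) := by
    rw [map_prod, ← Finset.prod_image (f := fun x => x) fun a _ b _ hab => hi hab, hval,
      Finset.prod_eq_multiset_prod, Multiset.map_id']
  have hdetx : algebraMap K (AlgebraicClosure K) (LinearMap.det ψU) = i (∏ r ∈ T, r) := by
    rw [LinearMap.det_eq_sign_charpoly_coeff, ← hcdef, map_mul, ← coeff_map,
      hsplits.coeff_zero_eq_prod_roots_of_monic hcE, hprod, natDegree_map, hcdef,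
      LinearMap.charpoly_natDegree, map_pow, map_neg, map_one, ← mul_assoc, ← mul_pow]
    norm_num
  obtain ⟨n, hn, τ, a, hτ⟩ := hdet
  set x : AlgebraicClosure ℚ := ∏ r ∈ T, r with hx
  have hix : i (x ^ n) = τ a := by
    rw [← hτ, map_pow, map_pow, hdetx]
  have hai : IsIntegral ℚ a := (Algebra.IsAlgebraic.isAlgebraic a).isIntegral
  have h1 : aeval (j (x ^ n)) (minpoly ℚ a) = 0 := by
    have h2 : aeval (τ a) (minpoly ℚ a) = 0 := by
      have h3 := aeval_algHom_apply (τ.toRatAlgHom) a (minpoly ℚ a)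
      rw [minpoly.aeval, map_zero] at h3
      exact h3
    rw [← hix, aeval_algHom_apply] at h2
    have h3 : aeval (x ^ n) (minpoly ℚ a) = 0 := hi (by rw [h2, map_zero])
    rw [aeval_algHom_apply, h3, map_zero]
  obtain ⟨φ, hφ⟩ := IntermediateField.exists_algHom_of_splits_of_aeval (F := ℚ) (E := F) (K := ℂ)
    (fun s => ⟨(Algebra.IsAlgebraic.isAlgebraic s).isIntegral, IsAlgClosed.splits _⟩) h1
  have hTne : T.Nonempty := by
    obtain ⟨α, hα⟩ := IsAlgClosed.exists_aeval_eq_zero (AlgebraicClosure K) c (by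
      intro h
      exact hc1 (hcm.degree_le_zero_iff_eq_one.1 h.le))
    have h2 : α ∈ T.image i := by
      rw [← hroots, Multiset.mem_toFinset, mem_roots hcE.ne_zero, IsRoot, eval_map, ← aeval_def]
      exact hα
    obtain ⟨r, hr, -⟩ := Finset.mem_image.1 h2
    exact ⟨r, hr⟩
  refine hNE (T.image j) (hTne.image j) ?_ n hn (φ : F →+* ℂ) a ?_
  · intro z hz
    obtain ⟨r, hr, rfl⟩ := Finset.mem_image.1 hz
    have hr2 := hr
    rw [hT, Finset.mem_filter, hmemRA] at hr2
    have hPz : aeval (j r) P = 0 := by rw [aeval_algHom_apply, hr2.1, map_zero]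
    refine ⟨hPz, fun hmem => ?_⟩
    obtain ⟨r', hr', hrr⟩ := Finset.mem_image.1 hmem
    have hfr : r' = aeval r f := hj (by rw [hrr, ← aeval_algHom_apply, hf _ hPz])
    have hr3 := hr'
    rw [hT, Finset.mem_filter, hmemRA] at hr3
    have hPz' : aeval (j r') P = 0 := by rw [aeval_algHom_apply, hr3.1, map_zero]
    have hff : aeval (aeval r f) f = r := by
      apply hj
      rw [← hfr, ← aeval_algHom_apply, hf _ hPz', hrr]
      simp
    have hfi : aeval (i r) (f.map (algebraMap ℚ K)) = i (aeval r f) := by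
      rw [aeval_map_algebraMap, aeval_algHom_apply]
    refine hcore (i r) hr2.2 ?_ ?_
    · rw [hfi, aeval_map_algebraMap, aeval_algHom_apply, hff]
    · rw [hfi, ← hfr]
      exact hr3.2
  · rw [Finset.prod_image fun a _ b _ hab => hj hab, ← map_prod, ← hx, ← map_pow]
    exact hφ.symm

end

end Pool.Agent.W514.SS
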