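import Pool.Agent.W514.SS.Core

/-!
# Groups of similitudes containing an element without exotic relations
-/

set_option autoImplicit false

namespace Pool.Agent.W514.SS

open Polynomial Module

/-- Sign changes: for every non-real root `z` of `P` the number `z / conj z` is not a root of unity
and there is an endomorphism of the field of complex numbers, trivial on the images of `F`, which
maps `z` to its conjugate and fixes all the roots of `P` different from `z` and its conjugate. -/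
def SignChanges (P : ℚ[X]) (F : Type*) [Field F] : Prop :=
  ∀ z : ℂ, aeval z P = 0 → (starRingEnd ℂ) z ≠ z →
    (∀ n : ℕ, 0 < n → (z / (starRingEnd ℂ) z) ^ n ≠ 1) ∧
    ∃ σ : ℂ →+* ℂ, σ z = (starRingEnd ℂ) z ∧
      (∀ w : ℂ, aeval w P = 0 → w ≠ z → w ≠ (starRingEnd ℂ) z → σ w = w) ∧
      ∀ (τ : F →+* ℂ) (a : F), σ (τ a) = τ a

lemma noExotic_of_signChanges {P : ℚ[X]} {F : Type*} [Field F] (h0 : aeval (0 : ℂ) P ≠ 0)
    (h : SignChanges P F) : NoExotic P F := by
  classical
  intro S hS hSP n hn τ a heq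
  obtain ⟨z, hz⟩ := hS
  have hzc : (starRingEnd ℂ) z ≠ z := by
    intro h1
    apply (hSP z hz).2
    rw [h1]
    exact hz
  obtain ⟨h1, σ, hσz, hσw, hστ⟩ := h z (hSP z hz).1 hzc
  have hne : ∀ w ∈ S, w ≠ 0 := by
    rintro w hw rfl
    exact h0 (hSP 0 hw).1
  have hrest : ∀ w ∈ S.erase z, σ w = w := by
    intro w hw
    rw [Finset.mem_erase] at hw
    refine hσw w (hSP w hw.2).1 hw.1 ?_
    rintro rfl
    exact (hSP z hz).2 hw.2
  have hR : (∏ w ∈ S.erase z, w) ≠ 0 := Finset.prod_ne_zero_iff.2 fun w hw =>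
    hne w (Finset.mem_of_mem_erase hw)
  have e1 : (z * ∏ w ∈ S.erase z, w) ^ n = τ a := by
    rw [Finset.mul_prod_erase S (fun w => w) hz]
    exact heq
  have e2 : ((starRingEnd ℂ) z * ∏ w ∈ S.erase z, w) ^ n = τ a := by
    have := congrArg σ e1
    rw [hστ, map_pow, map_mul, hσz, map_prod, Finset.prod_congr rfl hrest] at this
    exact this
  have hz0 : (starRingEnd ℂ) z ≠ 0 := by
    intro h2
    have h3 : z = 0 := by simpa using h2
    exact hne z hz h3
  apply h1 n hn
  rw [mul_pow] at e1 e2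
  have h3 : z ^ n = (starRingEnd ℂ) z ^ n := by
    have h4 := e1.trans e2.symm
    exact mul_right_cancel₀ (pow_ne_zero n hR) h4
  rw [div_pow, h3, div_self (pow_ne_zero n hz0)]

section
variable {K V F G : Type*} [Field K] [CharZero K] [AddCommGroup V] [Module K V]
  [FiniteDimensional K V] [Field F] [CharZero F] [Algebra.IsAlgebraic ℚ F]

theorem group_main [Group G] {P : ℚ[X]} {N : ℚ} (hN : N ≠ 0) (hP : P.Separable)
    (hw : ∀ z : ℂ, aeval z P = 0 → z * (starRingEnd ℂ) z = N) (hNE : NoExotic P F)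
    {B : LinearMap.BilinForm K V} (hB : B.Nondegenerate) (hr : B.IsRefl)
    (ρ : Representation K G V) (χ : G → K)
    (hχ : ∀ g x y, B (ρ g x) (ρ g y) = χ g * B x y) (φ : G)
    (hφ : (ρ φ).charpoly = P.map (algebraMap ℚ K)) (hφN : χ φ = algebraMap ℚ K N)
    (hdet : ∀ (U : Submodule K V) (hU : ∀ g, ∀ x ∈ U, ρ g x ∈ U),
      PowerIn F (LinearMap.det (LinearMap.restrict (ρ φ) (hU φ) : End K U)))
    (W : Submodule K V) (hW : ∀ g, ∀ x ∈ W, ρ g x ∈ W) :
    IsCompl W (B.orthogonal W) ∧ ∀ g, ∀ x ∈ B.orthogonal W, ρ g x ∈ B.orthogonal W := by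
  have horth : ∀ g, ∀ x ∈ B.orthogonal W, ρ g x ∈ B.orthogonal W := by
    intro g x hx
    rw [LinearMap.BilinForm.mem_orthogonal_iff] at hx ⊢
    intro w hw
    have h1 : ρ g (ρ g⁻¹ w) = w := by
      rw [← Module.End.mul_apply, ← map_mul, mul_inv_cancel, map_one, Module.End.one_apply]
    have h2 : B (ρ g (ρ g⁻¹ w)) (ρ g x) = 0 := by
      rw [hχ, hx _ (hW g⁻¹ w hw), mul_zero]
    rw [h1] at h2
    exact h2
  refine ⟨?_, horth⟩
  rw [LinearMap.BilinForm.isCompl_orthogonal_iff_disjoint hr, disjoint_iff]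
  -- the constant term of `P` is not zero
  have hP0 : P.coeff 0 ≠ 0 := by
    intro h0
    have h1 : aeval (0 : ℂ) P = 0 := by
      rw [← Polynomial.coeff_zero_eq_aeval_zero', h0, map_zero]
    have h2 := hw 0 h1
    rw [zero_mul] at h2
    exact hN (by exact_mod_cast h2.symm)
  set f : ℚ[X] := C (-N / P.coeff 0) * P.divX with hf
  have hXf : X * f = C N - C (N / P.coeff 0) * P := by
    have h1 := Polynomial.divX_mul_X_add P
    have h2 : C (N / P.coeff 0) * C (P.coeff 0) = C N := by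
      rw [← C_mul, div_mul_cancel₀ _ hP0]
    calc X * f = C (-N / P.coeff 0) * (P.divX * X) := by rw [hf]; ring
      _ = C (-N / P.coeff 0) * (P - C (P.coeff 0)) := by
          congr 1
          exact eq_sub_of_add_eq h1
      _ = C (N / P.coeff 0) * C (P.coeff 0) - C (N / P.coeff 0) * P := by
          rw [neg_div, C_neg]; ring
      _ = C N - C (N / P.coeff 0) * P := by rw [h2]
  have hfz : ∀ z : ℂ, aeval z P = 0 → aeval z f = (starRingEnd ℂ) z := by
    intro z hz
    have h1 := congrArg (aeval z) hXf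
    rw [map_mul, aeval_X, map_sub, map_mul (aeval z) (C (N / P.coeff 0)) P, hz, mul_zero, sub_zero,
      aeval_C] at h1
    have h2 := hw z hz
    have hz0 : z ≠ 0 := by
      rintro rfl
      rw [zero_mul] at h2
      exact hN (by exact_mod_cast h2.symm)
    apply mul_left_cancel₀ hz0
    rw [h1, h2]
    simp
  have hNK : algebraMap ℚ K N ≠ 0 := by
    simpa using hN
  have hadj : ∀ x y, B (ρ φ x) y = B x (aeval (ρ φ) (f.map (algebraMap ℚ K)) y) := by
    intro x y
    have h1 : (ρ φ) (aeval (ρ φ) (f.map (algebraMap ℚ K)) y) = (algebraMap ℚ K N) • y := by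
      have h2 := congrArg (fun p : ℚ[X] => aeval (ρ φ) (p.map (algebraMap ℚ K)) y) hXf
      simp only [Polynomial.map_mul, Polynomial.map_sub, map_X, map_mul, aeval_X,
        Module.End.mul_apply, map_C, map_sub] at h2
      rw [h2, ← hφ, LinearMap.aeval_self_charpoly, mul_zero, sub_zero, aeval_C]
      rfl
    apply mul_left_cancel₀ hNK
    rw [← hφN, ← hχ φ x, h1, map_smul, smul_eq_mul, hφN]
  have hUst : ∀ g, ∀ x ∈ W ⊓ B.orthogonal W, ρ g x ∈ W ⊓ B.orthogonal W := fun g x hx =>
    ⟨hW g x hx.1, horth g x hx.2⟩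
  refine isotropic_eq_bot hP hfz hNE hB.2 hφ hadj (hUst φ) ?_ (hdet _ hUst)
  intro x hx y hy
  exact (LinearMap.BilinForm.mem_orthogonal_iff.1 hy.2) x hx.1

end

end Pool.Agent.W514.SS
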