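import Mathlib

/-!
# Stable subspaces of an operator with separable characteristic polynomial
-/

set_option autoImplicit false

namespace Pool.Agent.W514.SS

open Polynomial Module

variable {K V : Type*} [Field K] [AddCommGroup V] [Module K V]

lemma aeval_stable {ψ : End K V} {U : Submodule K V} (hU : ∀ x ∈ U, ψ x ∈ U) (g : K[X]) {x : V}
    (hx : x ∈ U) : aeval ψ g x ∈ U := by
  induction g using Polynomial.induction_on' with
  | add p q hp hq => rw [map_add]; exact U.add_mem hp hq
  | monomial n a =>
    rw [aeval_monomial, ← Algebra.smul_def, LinearMap.smul_apply]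
    refine U.smul_mem _ ?_
    clear a
    induction n with
    | zero => simpa using hx
    | succ n ih => rw [pow_succ', Module.End.mul_apply]; exact hU _ ih

lemma aeval_restrict {ψ : End K V} {U : Submodule K V} (hU : ∀ x ∈ U, ψ x ∈ U) (g : K[X]) (x : U) :
    ((aeval (LinearMap.restrict ψ hU : End K U) g x : U) : V) = aeval ψ g (x : V) := by
  induction g using Polynomial.induction_on' with
  | add p q hp hq => simp [map_add, hp, hq]
  | monomial n a =>
    rw [aeval_monomial, aeval_monomial, ← Algebra.smul_def, ← Algebra.smul_def,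
      LinearMap.smul_apply, LinearMap.smul_apply, Submodule.coe_smul]
    congr 1
    induction n with
    | zero => simp
    | succ n ih =>
      rw [pow_succ', pow_succ', Module.End.mul_apply, Module.End.mul_apply, ← ih]
      rfl

variable [FiniteDimensional K V]

/-- A nonconstant factor of the characteristic polynomial is not injective on the space. -/
lemma not_injective_of_dvd {ψ : End K V} {Q : K[X]} (hQ : Q.degree ≠ 0) (hQP : Q ∣ ψ.charpoly) :
    ¬ Function.Injective (aeval ψ Q) := by
  intro hinj
  have hbij : Function.Bijective (aeval ψ Q) :=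
    ⟨hinj, (LinearMap.injective_iff_surjective (f := aeval ψ Q)).1 hinj⟩
  set E := AlgebraicClosure K
  obtain ⟨α, hα⟩ := IsAlgClosed.exists_aeval_eq_zero E Q hQ
  let ψE : End E (TensorProduct K E V) := ψ.baseChange E
  have hroot : ψE.charpoly.IsRoot α := by
    rw [LinearMap.charpoly_baseChange]
    obtain ⟨R, hR⟩ := hQP
    rw [hR, Polynomial.map_mul, IsRoot, eval_mul, eval_map, ← aeval_def, hα, zero_mul]
  have hev : ψE.HasEigenvalue α := (Module.End.hasEigenvalue_iff_isRoot_charpoly ψE α).2 hroot
  obtain ⟨x, hx⟩ := hev.exists_hasEigenvector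
  obtain ⟨g, hg⟩ : ∃ g : End K V, g * aeval ψ Q = 1 := by
    let e := LinearEquiv.ofBijective (aeval ψ Q) hbij
    refine ⟨(e.symm : V →ₗ[K] V), ?_⟩
    ext v
    simp only [Module.End.mul_apply, Module.End.one_apply]
    exact e.symm_apply_apply v
  have h1 : aeval ψE (Q.map (algebraMap K E)) x = 0 := by
    rw [Module.End.aeval_apply_of_hasEigenvector hx, eval_map, ← aeval_def, hα, zero_smul]
  have h2 : aeval ψE (Q.map (algebraMap K E)) = (aeval ψ Q).baseChange E := by
    rw [aeval_map_algebraMap]
    have h3 := Polynomial.aeval_algHom_apply (Module.End.baseChangeHom K E V) ψ Q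
    exact h3
  have h3 : (g.baseChange E * (aeval ψ Q).baseChange E : End E (TensorProduct K E V)) = 1 := by
    have := congrArg (Module.End.baseChangeHom K E V) hg
    rw [map_mul, map_one] at this
    exact this
  have h4 : x = 0 := by
    have h5 := congrArg (fun T => T x) h3
    simp only [Module.End.mul_apply, Module.End.one_apply] at h5
    rw [← h2, h1, map_zero] at h5
    exact h5.symm
  exact hx.2 h4

/-- For a squarefree characteristic polynomial the minimal polynomial is the characteristic
polynomial. -/
lemma minpoly_eq_charpoly {ψ : End K V} (hsq : Squarefree ψ.charpoly) :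
    minpoly K ψ = ψ.charpoly := by
  have hint : IsIntegral K ψ := Algebra.IsIntegral.isIntegral ψ
  obtain ⟨R, hR⟩ := LinearMap.minpoly_dvd_charpoly ψ
  have hmon : (minpoly K ψ).Monic := minpoly.monic hint
  have hRu : IsUnit R := by
    by_contra hR1
    have hR0 : R ≠ 0 := by
      rintro rfl
      rw [mul_zero] at hR
      exact ψ.charpoly_monic.ne_zero hR
    obtain ⟨Q, hQi, hQR⟩ := WfDvdMonoid.exists_irreducible_factor hR1 hR0
    have hcop : IsCoprime Q (minpoly K ψ) := by
      refine (hQi.coprime_iff_not_dvd).2 fun hQm => ?_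
      have : Q * Q ∣ ψ.charpoly := by
        rw [hR]
        exact mul_dvd_mul hQm hQR
      exact hQi.not_isUnit (hsq Q this)
    have hdeg : Q.degree ≠ 0 := fun h => hQi.not_isUnit (isUnit_iff_degree_eq_zero.2 h)
    have hni := not_injective_of_dvd (ψ := ψ) hdeg (hQR.trans ⟨minpoly K ψ, by rw [hR, mul_comm]⟩)
    apply hni
    obtain ⟨a, b, hab⟩ := hcop
    have h1 : aeval ψ a * aeval ψ Q = 1 := by
      have := congrArg (aeval ψ) hab
      rw [map_add, map_mul, map_mul, minpoly.aeval, mul_zero, add_zero, map_one] at this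
      exact this
    intro x y hxy
    have h2 := congrArg (aeval ψ a) hxy
    rw [← Module.End.mul_apply, ← Module.End.mul_apply, h1] at h2
    simpa using h2
  refine eq_of_monic_of_associated hmon ψ.charpoly_monic ?_
  rw [hR]
  exact (associated_mul_unit_right _ _ hRu)

lemma finrank_ker_le {ψ : End K V} (hsq : Squarefree ψ.charpoly) {Q R : K[X]}
    (hQR : ψ.charpoly = Q * R) :
    finrank K (LinearMap.ker (aeval ψ Q)) ≤ Q.natDegree := by
  have hcop : IsCoprime Q R := by
    have h0 : Q * R ≠ 0 := by rw [← hQR]; exact ψ.charpoly_monic.ne_zero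
    refine isCoprime_of_irreducible_dvd ?_ ?_
    · rintro ⟨rfl, -⟩
      simp at h0
    · intro z hz hzQ hzR
      have : z * z ∣ ψ.charpoly := by
        rw [hQR]
        exact mul_dvd_mul hzQ hzR
      exact hz.not_isUnit (hsq z this)
  have hQ0 : Q ≠ 0 := by
    rintro rfl
    rw [zero_mul] at hQR
    exact ψ.charpoly_monic.ne_zero hQR
  have hR0 : R ≠ 0 := by
    rintro rfl
    rw [mul_zero] at hQR
    exact ψ.charpoly_monic.ne_zero hQR
  set W := LinearMap.ker (aeval ψ R) with hW
  have hWst : ∀ x ∈ W, ψ x ∈ W := by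
    intro x hx
    rw [hW, LinearMap.mem_ker] at hx ⊢
    have : aeval ψ R (ψ x) = ψ (aeval ψ R x) := by
      have hc : aeval ψ R * ψ = ψ * aeval ψ R := by
        have h1 : aeval ψ (R * X) = aeval ψ (X * R) := by rw [mul_comm]
        rwa [map_mul, map_mul, aeval_X] at h1
      exact congrArg (fun T : End K V => T x) hc
    rw [this, hx, map_zero]
  set ψW : End K W := LinearMap.restrict ψ hWst with hψW
  set mR := minpoly K ψW with hmR
  obtain ⟨a, b, hab⟩ := hcop
  have hkill : aeval ψ (Q * mR) = 0 := by
    ext v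
    have hv : v = aeval ψ (a * Q) v + aeval ψ (b * R) v := by
      rw [← LinearMap.add_apply, ← map_add, hab, map_one, Module.End.one_apply]
    have h1 : aeval ψ (a * Q) v ∈ W := by
      rw [hW, LinearMap.mem_ker, ← Module.End.mul_apply, ← map_mul,
        show R * (a * Q) = a * (Q * R) by ring, map_mul, ← hQR, LinearMap.aeval_self_charpoly,
        mul_zero, LinearMap.zero_apply]
    have h2 : aeval ψ mR (aeval ψ (a * Q) v) = 0 := by
      have h3 := aeval_restrict hWst mR ⟨_, h1⟩
      have h4 : aeval ψW mR = 0 := minpoly.aeval K ψW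
      rw [← hψW, h4] at h3
      simpa using h3.symm
    have h5 : aeval ψ Q (aeval ψ (b * R) v) = 0 := by
      rw [← Module.End.mul_apply, ← map_mul, show Q * (b * R) = b * (Q * R) by ring, map_mul,
        ← hQR, LinearMap.aeval_self_charpoly, mul_zero, LinearMap.zero_apply]
    rw [LinearMap.zero_apply]
    conv_lhs => rw [hv]
    rw [map_add, map_mul, Module.End.mul_apply, h2, map_zero, zero_add, ← map_mul, mul_comm Q mR,
      map_mul, Module.End.mul_apply, h5, map_zero]
  have hdvd : Q * R ∣ Q * mR := by
    rw [← hQR, ← minpoly_eq_charpoly hsq]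
    exact minpoly.dvd K ψ hkill
  have hdvd' : R ∣ mR := (mul_dvd_mul_iff_left hQ0).1 hdvd
  have hint : IsIntegral K ψW := Algebra.IsIntegral.isIntegral ψW
  have hd1 : R.natDegree ≤ finrank K W := by
    calc R.natDegree ≤ mR.natDegree := natDegree_le_of_dvd hdvd' (minpoly.ne_zero hint)
      _ ≤ ψW.charpoly.natDegree :=
          natDegree_le_of_dvd (LinearMap.minpoly_dvd_charpoly ψW) ψW.charpoly_monic.ne_zero
      _ = finrank K W := LinearMap.charpoly_natDegree ψW
  have hdisj : Disjoint (LinearMap.ker (aeval ψ Q)) W := by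
    rw [Submodule.disjoint_def]
    intro x hx hx'
    rw [LinearMap.mem_ker] at hx
    rw [hW, LinearMap.mem_ker] at hx'
    have : x = aeval ψ (a * Q) x + aeval ψ (b * R) x := by
      rw [← LinearMap.add_apply, ← map_add, hab, map_one, Module.End.one_apply]
    rw [this, map_mul, map_mul, Module.End.mul_apply, Module.End.mul_apply, hx, hx', map_zero,
      map_zero, add_zero]
  have hd2 : finrank K (LinearMap.ker (aeval ψ Q)) + finrank K W ≤ finrank K V :=
    Submodule.finrank_add_finrank_le_of_disjoint hdisj
  have hd3 : Q.natDegree + R.natDegree = finrank K V := by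
    rw [← natDegree_mul hQ0 hR0, ← hQR, LinearMap.charpoly_natDegree]
  omega

/-- Structure of the stable subspaces. -/
lemma stable_eq_ker {ψ : End K V} (hsq : Squarefree ψ.charpoly) {U : Submodule K V}
    (hU : ∀ x ∈ U, ψ x ∈ U) :
    (LinearMap.restrict ψ hU : End K U).charpoly ∣ ψ.charpoly ∧
    U = LinearMap.ker (aeval ψ (LinearMap.restrict ψ hU : End K U).charpoly) := by
  set ψU : End K U := LinearMap.restrict ψ hU with hψU
  have hint : IsIntegral K ψU := Algebra.IsIntegral.isIntegral ψU
  set m := minpoly K ψU with hm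
  have hmP : m ∣ ψ.charpoly := by
    refine minpoly.dvd K ψU ?_
    ext x
    rw [aeval_restrict hU, LinearMap.aeval_self_charpoly]
    simp
  obtain ⟨R, hR⟩ := hmP
  have h1 : finrank K (LinearMap.ker (aeval ψ m)) ≤ m.natDegree := finrank_ker_le hsq hR
  have h2 : U ≤ LinearMap.ker (aeval ψ m) := by
    intro x hx
    rw [LinearMap.mem_ker]
    have h3 := aeval_restrict hU m ⟨x, hx⟩
    rw [← hψU, show aeval ψU m = 0 from minpoly.aeval K ψU] at h3
    simpa using h3.symm
  have h3 : finrank K U ≤ finrank K (LinearMap.ker (aeval ψ m)) := Submodule.finrank_mono h2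
  have h4 : m.natDegree ≤ ψU.charpoly.natDegree :=
    natDegree_le_of_dvd (LinearMap.minpoly_dvd_charpoly ψU) ψU.charpoly_monic.ne_zero
  have h5 : ψU.charpoly.natDegree = finrank K U := LinearMap.charpoly_natDegree ψU
  have h6 : m = ψU.charpoly :=
    (eq_of_monic_of_dvd_of_natDegree_le (minpoly.monic hint) ψU.charpoly_monic
      (LinearMap.minpoly_dvd_charpoly ψU) (by rw [← hm]; omega)).symm
  refine ⟨?_, ?_⟩
  · rw [← h6, hR]
    exact dvd_mul_right _ _
  · rw [← h6]
    exact Submodule.eq_of_le_of_finrank_le h2 (by omega)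

end Pool.Agent.W514.SS
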